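import Pool.Agent.H32.Vin.Local

set_option autoImplicit false

namespace Pool.Agent.H32.Vin

open Finset

/-- residues `< p ^ L` congruent to `a` mod `p` -/
def disc (p L a : ℕ) : Finset ℕ := (range (p ^ L)).filter (fun x => x % p = a)

lemma mem_disc {p L a x : ℕ} : x ∈ disc p L a ↔ x < p ^ L ∧ x % p = a := by
  simp [disc]

lemma card_disc (p L a : ℕ) (hL : 1 ≤ L) (ha : a < p) : (disc p L a).card = p ^ (L - 1) := by
  have hp : 0 < p := by omega
  have hpow : p ^ L = p * p ^ (L - 1) := by
    rw [← pow_succ']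
    congr 1
    omega
  have : disc p L a = (range (p ^ (L - 1))).image (fun b => p * b + a) := by
    ext x
    rw [mem_disc, mem_image]
    constructor
    · rintro ⟨h1, h2⟩
      refine ⟨x / p, ?_, ?_⟩
      · rw [mem_range]
        rw [hpow] at h1
        exact Nat.div_lt_of_lt_mul h1
      · rw [← h2]
        exact Nat.div_add_mod x p
    · rintro ⟨b, hb, rfl⟩
      rw [mem_range] at hb
      constructor
      · rw [hpow]
        calc p * b + a < p * b + p := by omega
          _ = p * (b + 1) := by ring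
          _ ≤ p * p ^ (L - 1) := Nat.mul_le_mul_left _ hb
      · rw [Nat.mul_add_mod]
        exact Nat.mod_eq_of_lt ha
  rw [this, card_image_of_injective, card_range]
  intro b b' h
  simp only at h
  have : p * b = p * b' := by omega
  exact Nat.eq_of_mul_eq_mul_left hp this

/-- boxes of discs -/
def dbox {n : ℕ} (p L : ℕ) (ρ : Fin n → ℕ) : Finset (Fin n → ℕ) :=
  Fintype.piFinset (fun i => disc p L (ρ i))

lemma mem_dbox {n : ℕ} {p L : ℕ} {ρ x : Fin n → ℕ} :
    x ∈ dbox p L ρ ↔ ∀ i, x i < p ^ L ∧ x i % p = ρ i := by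
  simp [dbox, mem_disc]

lemma card_dbox {n : ℕ} (p L : ℕ) (hL : 1 ≤ L) (ρ : Fin n → ℕ) (hρ : ∀ i, ρ i < p) :
    (dbox p L ρ).card = (p ^ (L - 1)) ^ n := by
  rw [dbox, Fintype.card_piFinset, Finset.prod_congr rfl (fun i _ => card_disc p L (ρ i) hL (hρ i))]
  simp

/-- every target in the residue class is attained -/
lemma surj (p k L : ℕ) (hp : p.Prime) (hkp : k < p) (hL : 1 ≤ L) (ρ : Fin k → ℕ)
    (hρ : ∀ i, ρ i < p) (hinj : Function.Injective ρ) (c h : Fin k → ℕ)
    (hh : ∀ j, h j < p ^ L)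
    (hc : ∀ j : Fin k, h j % p = (∑ i, ρ i ^ (j.val + 1) + c j) % p) :
    ∃ z ∈ dbox p L ρ, ∀ j : Fin k, (∑ i, z i ^ (j.val + 1) + c j) % p ^ L = h j := by
  classical
  have hp0 : 0 < p := hp.pos
  have hpL : 0 < p ^ L := by positivity
  have hpdvd : p ∣ p ^ L := dvd_pow_self p (by omega)
  set Φ : (Fin k → ℕ) → (Fin k → ℕ) := fun z j => (∑ i, z i ^ (j.val + 1) + c j) % p ^ L with hΦ
  set E : Finset (Fin k → ℕ) := dbox p L (fun j => (∑ i, ρ i ^ (j.val + 1) + c j) % p) with hE
  have hmaps : (dbox p L ρ).image Φ ⊆ E := by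
    intro y hy
    rw [mem_image] at hy
    obtain ⟨z, hz, rfl⟩ := hy
    rw [mem_dbox] at hz
    rw [hE, mem_dbox]
    intro j
    refine ⟨Nat.mod_lt _ hpL, ?_⟩
    simp only [hΦ]
    rw [Nat.mod_mod_of_dvd _ hpdvd]
    have : (∑ i, z i ^ (j.val + 1)) ≡ ∑ i, ρ i ^ (j.val + 1) [MOD p] := by
      apply Nat.ModEq.sum
      intro i _
      apply Nat.ModEq.pow
      have := (hz i).2
      rw [Nat.ModEq, this, Nat.mod_eq_of_lt (hρ i)]
    exact Nat.ModEq.add_right _ this
  have hinjOn : Set.InjOn Φ (dbox p L ρ : Set (Fin k → ℕ)) := by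
    intro z hz z' hz' hzz
    rw [mem_coe, mem_dbox] at hz hz'
    have h1 := lift_unique p k L hp hkp (fun i => (z i : ℤ)) (fun i => (z' i : ℤ))
      (by
        intro i i' hd
        apply hinj
        have h2 : (z i : ℤ) ≡ z i' [ZMOD p] := (Int.modEq_iff_dvd.mpr hd).symm
        have h3 : z i ≡ z i' [MOD p] := (Int.natCast_modEq_iff).mp h2
        have h4 : z i % p = z i' % p := h3
        rw [(hz i).2, (hz i').2] at h4
        exact h4)
      (by
        intro i
        have h3 : z i ≡ z' i [MOD p] := by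
          show z i % p = z' i % p
          rw [(hz i).2, (hz' i).2]
        exact Int.modEq_iff_dvd.mp ((Int.natCast_modEq_iff).mpr h3))
      (by
        intro j
        have h3 : (∑ i, z i ^ (j.val + 1) + c j) ≡ (∑ i, z' i ^ (j.val + 1) + c j) [MOD p ^ L] :=
          congrFun hzz j
        have h4 : (∑ i, z i ^ (j.val + 1)) ≡ (∑ i, z' i ^ (j.val + 1)) [MOD p ^ L] :=
          Nat.ModEq.add_right_cancel' _ h3
        have h5 := Int.modEq_iff_dvd.mp ((Int.natCast_modEq_iff).mpr h4)
        push_cast at h5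
        exact h5)
      L hL le_rfl
    funext i
    have h2 := h1 i
    have h3 : ((z i : ℕ) : ℤ) ≡ (z' i : ℕ) [ZMOD ((p ^ L : ℕ) : ℤ)] := by
      apply Int.modEq_iff_dvd.mpr
      push_cast
      exact h2
    have h4 : z i ≡ z' i [MOD p ^ L] := (Int.natCast_modEq_iff).mp h3
    have h5 : z i % p ^ L = z' i % p ^ L := h4
    rwa [Nat.mod_eq_of_lt (hz i).1, Nat.mod_eq_of_lt (hz' i).1] at h5
  have hcard : E.card ≤ ((dbox p L ρ).image Φ).card := by
    rw [card_image_of_injOn hinjOn, card_dbox p L hL ρ hρ, hE,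
      card_dbox p L hL _ (fun j => Nat.mod_lt _ hp0)]
  have heq : (dbox p L ρ).image Φ = E := eq_of_subset_of_card_le hmaps hcard
  have hmem : h ∈ E := by
    rw [hE, mem_dbox]
    exact fun j => ⟨hh j, hc j⟩
  rw [← heq, mem_image] at hmem
  obtain ⟨z, hz, hzh⟩ := hmem
  exact ⟨z, hz, fun j => congrFun hzh j⟩

/-- solutions of the congruences, in the box `[0, p ^ L) ^ n` -/
def sol (p k L m n : ℕ) : Finset (Fin n → ℕ) :=
  (Fintype.piFinset fun _ : Fin n => range (p ^ L)).filter
    (fun x => ∀ j : Fin k, p ^ ((j.val + 1) * m) ∣ ∑ i, x i ^ (j.val + 1))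

lemma mem_sol {p k L m n : ℕ} {x : Fin n → ℕ} :
    x ∈ sol p k L m n ↔ (∀ i, x i < p ^ L) ∧
      ∀ j : Fin k, p ^ ((j.val + 1) * m) ∣ ∑ i, x i ^ (j.val + 1) := by
  simp [sol]

/-- multiples of `p ^ e` below `p ^ L` -/
lemma card_multiples (p L e : ℕ) (hp : 0 < p) (he : e ≤ L) :
    ((range (p ^ L)).filter (fun x => p ^ e ∣ x)).card = p ^ (L - e) := by
  have hpow : p ^ L = p ^ e * p ^ (L - e) := by
    rw [← pow_add]
    congr 1
    omega
  have hpe : 0 < p ^ e := by positivity
  have : (range (p ^ L)).filter (fun x => p ^ e ∣ x) =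
      (range (p ^ (L - e))).image (fun b => p ^ e * b) := by
    ext x
    rw [mem_filter, mem_range, mem_image]
    constructor
    · rintro ⟨h1, b, rfl⟩
      refine ⟨b, ?_, rfl⟩
      rw [mem_range]
      rw [hpow] at h1
      exact Nat.lt_of_mul_lt_mul_left h1
    · rintro ⟨b, hb, rfl⟩
      rw [mem_range] at hb
      refine ⟨?_, Dvd.intro _ rfl⟩
      rw [hpow]
      exact Nat.mul_lt_mul_of_pos_left hb hpe
  rw [this, card_image_of_injective, card_range]
  intro b b' h
  exact Nat.eq_of_mul_eq_mul_left hpe h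

/-- the nonsingular part -/
lemma card_nonsing (p k l L m : ℕ) (hp : p.Prime) (hkp : k < p) (hm : 1 ≤ m)
    (hLm : k * m ≤ L) (hL : 1 ≤ L) (ρ : Fin (k + l) → ℕ) (hρ : ∀ i, ρ i < p)
    (hinj : ∀ i i' : Fin k, ρ (Fin.castAdd l i) = ρ (Fin.castAdd l i') → i = i')
    (hzero : ∀ j : Fin k, p ∣ ∑ i, ρ i ^ (j.val + 1)) :
    (p ^ (L - 1)) ^ l * ∏ j : Fin k, p ^ (L - (j.val + 1) * m) ≤
      ((sol p k L m (k + l)).filter (fun x => ∀ i, x i % p = ρ i)).card := by
  classical
  have hp0 : 0 < p := hp.pos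
  set D : Finset (Fin l → ℕ) := dbox p L (fun i => ρ (Fin.natAdd k i)) with hD
  set H : Finset (Fin k → ℕ) := Fintype.piFinset
    (fun j : Fin k => (range (p ^ L)).filter (fun x => p ^ ((j.val + 1) * m) ∣ x)) with hH
  have hDcard : D.card = (p ^ (L - 1)) ^ l := card_dbox p L hL _ (fun i => hρ _)
  have hHcard : H.card = ∏ j : Fin k, p ^ (L - (j.val + 1) * m) := by
    rw [hH, Fintype.card_piFinset]
    apply Finset.prod_congr rfl
    intro j _
    apply card_multiples p L _ hp0
    calc (j.val + 1) * m ≤ k * m := Nat.mul_le_mul_right _ j.2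
      _ ≤ L := hLm
  have hHmem : ∀ h ∈ H, ∀ j : Fin k, h j < p ^ L ∧ p ^ ((j.val + 1) * m) ∣ h j := by
    intro h hh j
    rw [hH, Fintype.mem_piFinset] at hh
    have := hh j
    rw [mem_filter, mem_range] at this
    exact this
  -- choose preimages
  have hex : ∀ w : Fin l → ℕ, ∀ h : Fin k → ℕ, ∃ z : Fin k → ℕ, w ∈ D → h ∈ H →
      z ∈ dbox p L (fun i => ρ (Fin.castAdd l i)) ∧
        ∀ j : Fin k, (∑ i, z i ^ (j.val + 1) + ∑ i, w i ^ (j.val + 1)) % p ^ L = h j := by
    intro w h
    by_cases hw : w ∈ D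
    · by_cases hh : h ∈ H
      · have h1 := hHmem h hh
        rw [hD, mem_dbox] at hw
        obtain ⟨z, hz, hz2⟩ := surj p k L hp hkp hL (fun i => ρ (Fin.castAdd l i))
          (fun i => hρ _) (fun i i' hii => hinj i i' hii) (fun j => ∑ i, w i ^ (j.val + 1)) h
          (fun j => (h1 j).1) (by
            intro j
            have h2 : p ∣ h j := by
              refine dvd_trans ?_ (h1 j).2
              apply dvd_pow_self
              have : 1 ≤ (j.val + 1) * m := Nat.mul_pos (by omega) hm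
              omega
            have h3 : (∑ i, ρ (Fin.castAdd l i) ^ (j.val + 1) + ∑ i, w i ^ (j.val + 1)) ≡
                (∑ i, ρ (Fin.castAdd l i) ^ (j.val + 1) +
                  ∑ i, ρ (Fin.natAdd k i) ^ (j.val + 1)) [MOD p] := by
              apply Nat.ModEq.add_left
              apply Nat.ModEq.sum
              intro i _
              apply Nat.ModEq.pow
              show w i % p = _ % p
              rw [(hw i).2, Nat.mod_eq_of_lt (hρ _)]
            rw [← Fin.sum_univ_add (fun i => ρ i ^ (j.val + 1))] at h3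
            have h4 : (∑ i, ρ i ^ (j.val + 1)) % p = 0 := Nat.mod_eq_zero_of_dvd (hzero j)
            rw [Nat.mod_eq_zero_of_dvd h2]
            rw [Nat.ModEq] at h3
            rw [h3, h4])
        exact ⟨z, fun _ _ => ⟨hz, hz2⟩⟩
      · exact ⟨0, fun _ h => absurd h hh⟩
    · exact ⟨0, fun h _ => absurd h hw⟩
  choose z hz using hex
  have hle : (D ×ˢ H).card ≤
      ((sol p k L m (k + l)).filter (fun x => ∀ i, x i % p = ρ i)).card := by
    apply card_le_card_of_injOn (fun q => Fin.append (z q.1 q.2) q.1)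
    · intro q hq
      rw [mem_coe, mem_product] at hq
      obtain ⟨hq1, hq2⟩ := hq
      obtain ⟨h1, h2⟩ := hz q.1 q.2 hq1 hq2
      have hq1' := hq1
      rw [hD, mem_dbox] at hq1'
      rw [mem_dbox] at h1
      have h3 := hHmem q.2 hq2
      rw [mem_coe, mem_filter, mem_sol]
      have hall : ∀ i : Fin (k + l), Fin.append (z q.1 q.2) q.1 i < p ^ L ∧
          Fin.append (z q.1 q.2) q.1 i % p = ρ i := by
        intro i
        refine Fin.addCases (fun i => ?_) (fun i => ?_) i
        · rw [Fin.append_left]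
          exact h1 i
        · rw [Fin.append_right]
          exact hq1' i
      refine ⟨⟨fun i => (hall i).1, ?_⟩, fun i => (hall i).2⟩
      intro j
      rw [Fin.sum_univ_add]
      simp only [Fin.append_left, Fin.append_right]
      have h4 := h2 j
      have h5 : p ^ ((j.val + 1) * m) ∣ p ^ L := by
        apply pow_dvd_pow
        calc (j.val + 1) * m ≤ k * m := Nat.mul_le_mul_right _ j.2
          _ ≤ L := hLm
      rw [← Nat.dvd_mod_iff (h5), h4]
      exact (h3 j).2
    · intro q hq q' hq' hqq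
      rw [mem_coe, mem_product] at hq hq'
      simp only at hqq
      have h1 : q.1 = q'.1 := by
        funext i
        have := congrFun hqq (Fin.natAdd k i)
        rwa [Fin.append_right, Fin.append_right] at this
      have h2 : z q.1 q.2 = z q'.1 q'.2 := by
        funext i
        have := congrFun hqq (Fin.castAdd l i)
        rwa [Fin.append_left, Fin.append_left] at this
      have h3 : q.2 = q'.2 := by
        funext j
        have e1 := (hz q.1 q.2 hq.1 hq.2).2 j
        have e2 := (hz q'.1 q'.2 hq'.1 hq'.2).2 j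
        rw [← e1, ← e2, h2, h1]
      exact Prod.ext h1 h3
  rwa [card_product, hDcard, hHcard] at hle

end Pool.Agent.H32.Vin
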