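import Pool.Agent.H32.Vin.Count

set_option autoImplicit false

namespace Pool.Agent.H32.Vin

open Finset

/-- the singular part: multiples of `p` -/
lemma card_sing (p k L m n : ℕ) (hp : 0 < p) (hL : 1 ≤ L) :
    (sol p k (L - 1) m n).card ≤
      ((sol p k L (m + 1) n).filter (fun x => ∀ i, x i % p = 0)).card := by
  classical
  apply card_le_card_of_injOn (fun x => fun i => p * x i)
  · intro x hx
    rw [mem_coe, mem_sol] at hx
    rw [mem_coe, mem_filter, mem_sol]
    refine ⟨⟨fun i => ?_, fun j => ?_⟩, fun i => Nat.mul_mod_right _ _⟩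
    · have : p ^ L = p * p ^ (L - 1) := by
        rw [← pow_succ']
        congr 1
        omega
      rw [this]
      exact Nat.mul_lt_mul_of_pos_left (hx.1 i) hp
    · have h1 : ∑ i, (p * x i) ^ (j.val + 1) = p ^ (j.val + 1) * ∑ i, x i ^ (j.val + 1) := by
        rw [mul_sum]
        exact sum_congr rfl (fun i _ => mul_pow _ _ _)
      rw [h1, Nat.mul_add, mul_one, add_comm, pow_add]
      exact Nat.mul_dvd_mul_left _ (hx.2 j)
  · intro x _ x' _ h
    funext i
    have := congrFun h i
    exact Nat.eq_of_mul_eq_mul_left hp this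

lemma sum_succ_fin (k m : ℕ) : ∑ j : Fin k, (j.val + 1) * m = (k * (k + 1) / 2) * m := by
  rw [← sum_mul]
  congr 1
  have h1 : ∑ j : Fin k, (j.val + 1) = ∑ i ∈ range k, (i + 1) :=
    (Fin.sum_univ_eq_sum_range (fun i => i + 1) k)
  rw [h1]
  have h2 : ∑ i ∈ range (k + 1), i = ∑ i ∈ range k, (i + 1) := by
    rw [sum_range_succ']
    simp
  rw [← h2, Finset.sum_range_id]
  simp [mul_comm]

/-- growth of the local density at the critical exponent: `k + l = k (k + 1) / 2`. -/
lemma card_sol (p k l : ℕ) (hp : p.Prime) (hkp : k < p) (hs : k + l = k * (k + 1) / 2)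
    (ρ : Fin (k + l) → ℕ) (hρ : ∀ i, ρ i < p)
    (hinj : ∀ i i' : Fin k, ρ (Fin.castAdd l i) = ρ (Fin.castAdd l i') → i = i')
    (hzero : ∀ j : Fin k, p ∣ ∑ i, ρ i ^ (j.val + 1)) (i₀ : Fin (k + l)) (hi₀ : ρ i₀ ≠ 0) :
    ∀ m L : ℕ, k * m ≤ L → m ≤ L → m * p ^ ((L - m) * (k + l)) ≤
      p ^ l * (sol p k L m (k + l)).card := by
  classical
  intro m
  induction m with
  | zero => intro L _ _; simp
  | succ m ih =>
    intro L hL hmL
    have hp0 : 0 < p := hp.pos
    by_cases hk0 : k = 0
    · -- trivial: k = 0 forces l = 0, contradiction with i₀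
      subst hk0
      exfalso
      have : l = 0 := by simpa using hs
      subst this
      exact i₀.elim0
    have hL1 : 1 ≤ L := by omega
    have hkm : k * m ≤ L - 1 := by
      rw [Nat.mul_succ] at hL
      omega
    have h1 := ih (L - 1) hkm (by omega)
    have h2 := card_sing p k L m (k + l) hp0 hL1
    have h3 := card_nonsing p k l L (m + 1) hp hkp (by omega) hL hL1 ρ hρ hinj hzero
    have hdisj : Disjoint ((sol p k L (m + 1) (k + l)).filter (fun x => ∀ i, x i % p = 0))
        ((sol p k L (m + 1) (k + l)).filter (fun x => ∀ i, x i % p = ρ i)) := by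
      rw [disjoint_filter]
      intro x _ h h'
      exact hi₀ ((h' i₀).symm.trans (h i₀))
    have h4 : ((sol p k L (m + 1) (k + l)).filter (fun x => ∀ i, x i % p = 0)).card +
        ((sol p k L (m + 1) (k + l)).filter (fun x => ∀ i, x i % p = ρ i)).card ≤
        (sol p k L (m + 1) (k + l)).card := by
      rw [← card_union_of_disjoint hdisj]
      exact card_le_card (union_subset (filter_subset _ _) (filter_subset _ _))
    -- exponent computation
    have h5 : p ^ l * ((p ^ (L - 1)) ^ l * ∏ j : Fin k, p ^ (L - (j.val + 1) * (m + 1))) =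
        p ^ ((L - (m + 1)) * (k + l)) := by
      have e1 : ∏ j : Fin k, p ^ (L - (j.val + 1) * (m + 1)) =
          p ^ (k * L - (k + l) * (m + 1)) := by
        rw [prod_pow_eq_pow_sum]
        congr 1
        rw [hs, ← sum_succ_fin k (m + 1)]
        have hle : ∀ j ∈ (univ : Finset (Fin k)), (j.val + 1) * (m + 1) ≤ L := by
          intro j _
          calc (j.val + 1) * (m + 1) ≤ k * (m + 1) := Nat.mul_le_mul_right _ j.2
            _ ≤ L := hL
        rw [Finset.sum_tsub_distrib _ hle]
        simp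
      rw [e1, ← pow_mul, ← pow_add, ← pow_add]
      congr 1
      have hle2 : (k + l) * (m + 1) ≤ k * L := by
        rw [hs, ← sum_succ_fin k (m + 1)]
        calc ∑ j : Fin k, (j.val + 1) * (m + 1) ≤ ∑ _j : Fin k, L := by
              apply sum_le_sum
              intro j _
              calc (j.val + 1) * (m + 1) ≤ k * (m + 1) := Nat.mul_le_mul_right _ j.2
                _ ≤ L := hL
          _ = k * L := by simp
      obtain ⟨d, hd⟩ : ∃ d, L = (m + 1) + d := ⟨L - (m + 1), by omega⟩
      have hd2 : L - (m + 1) = d := by omega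
      rw [hd2]
      obtain ⟨e, he⟩ : ∃ e, k * L = (k + l) * (m + 1) + e := ⟨_, (Nat.add_sub_of_le hle2).symm⟩
      have he2 : k * L - (k + l) * (m + 1) = e := by omega
      rw [he2]
      have hL1' : L - 1 = m + d := by omega
      rw [hL1']
      rw [hd] at he
      have e3 : (m + d) * l + l = (m + 1 + d) * l := by ring
      have e4 : (m + 1 + d) * (k + l) = k * (m + 1 + d) + (m + 1 + d) * l := by ring
      have e5 : (m + 1 + d) * (k + l) = (k + l) * (m + 1) + d * (k + l) := by ring
      omega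
    have h6 : L - 1 - m = L - (m + 1) := by omega
    rw [h6] at h1
    calc (m + 1) * p ^ ((L - (m + 1)) * (k + l))
        = m * p ^ ((L - (m + 1)) * (k + l)) + p ^ ((L - (m + 1)) * (k + l)) := by ring
      _ ≤ p ^ l * (sol p k (L - 1) m (k + l)).card +
          p ^ l * ((p ^ (L - 1)) ^ l * ∏ j : Fin k, p ^ (L - (j.val + 1) * (m + 1))) :=
          Nat.add_le_add h1 h5.ge
      _ ≤ p ^ l * ((sol p k L (m + 1) (k + l)).filter (fun x => ∀ i, x i % p = 0)).card +
          p ^ l * ((sol p k L (m + 1) (k + l)).filter (fun x => ∀ i, x i % p = ρ i)).card :=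
          Nat.add_le_add (Nat.mul_le_mul_left _ h2) (Nat.mul_le_mul_left _ h3)
      _ ≤ p ^ l * (sol p k L (m + 1) (k + l)).card := by
          rw [← Nat.mul_add]
          exact Nat.mul_le_mul_left _ h4

/-- tuples in `[1, N] ^ n` with divisible power sums -/
def solN (p k m n N : ℕ) : Finset (Fin n → ℕ) :=
  (Fintype.piFinset fun _ : Fin n => Icc 1 N).filter
    (fun x => ∀ j : Fin k, p ^ ((j.val + 1) * m) ∣ ∑ i, x i ^ (j.val + 1))

lemma card_solN (p k L m n N : ℕ) (hp : 0 < p) (hL : k * m ≤ L) :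
    (N / p ^ L - 1) ^ n * (sol p k L m n).card ≤ (solN p k m n N).card := by
  classical
  set q := p ^ L with hq
  have hq0 : 0 < q := by positivity
  set V : Finset (Fin n → ℕ) := Fintype.piFinset (fun _ : Fin n => range (N / q - 1)) with hV
  have hVc : V.card = (N / q - 1) ^ n := by
    rw [hV, Fintype.card_piFinset]
    simp
  rw [← hVc, ← card_product]
  apply card_le_card_of_injOn (fun w => fun i => q * (w.1 i + 1) + w.2 i)
  · intro w hw
    rw [mem_coe, mem_product, mem_sol] at hw
    obtain ⟨h1, h2, h3⟩ := hw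
    rw [hV, Fintype.mem_piFinset] at h1
    rw [mem_coe, solN, mem_filter, Fintype.mem_piFinset]
    refine ⟨fun i => ?_, fun j => ?_⟩
    · rw [mem_Icc]
      have h4 : w.1 i < N / q - 1 := mem_range.mp (h1 i)
      have h5 : w.2 i < q := h2 i
      have h6 : q * (N / q) ≤ N := Nat.mul_div_le _ _
      show 1 ≤ q * (w.1 i + 1) + w.2 i ∧ q * (w.1 i + 1) + w.2 i ≤ N
      constructor
      · have : q * 1 ≤ q * (w.1 i + 1) := Nat.mul_le_mul_left _ (by omega)
        omega
      · have h7 : q * (w.1 i + 1 + 1) ≤ q * (N / q) := Nat.mul_le_mul_left _ (by omega)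
        have h8 : q * (w.1 i + 1 + 1) = q * (w.1 i + 1) + q := by ring
        omega
    · have h4 : p ^ ((j.val + 1) * m) ∣ q := by
        rw [hq]
        apply pow_dvd_pow
        calc (j.val + 1) * m ≤ k * m := Nat.mul_le_mul_right _ j.2
          _ ≤ L := hL
      have h5 : ∑ i, (q * (w.1 i + 1) + w.2 i) ^ (j.val + 1) ≡ ∑ i, w.2 i ^ (j.val + 1)
          [MOD p ^ ((j.val + 1) * m)] := by
        apply Nat.ModEq.sum
        intro i _
        apply Nat.ModEq.pow
        have h6 : q * (w.1 i + 1) ≡ 0 [MOD p ^ ((j.val + 1) * m)] :=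
          (Nat.modEq_zero_iff_dvd).mpr (h4.mul_right _)
        have h7 := Nat.ModEq.add_right (w.2 i) h6
        rwa [zero_add] at h7
      exact (Nat.modEq_zero_iff_dvd).mp (h5.trans ((Nat.modEq_zero_iff_dvd).mpr (h3 j)))
  · intro w hw w' hw' h
    rw [mem_coe, mem_product, mem_sol] at hw hw'
    have hc : ∀ i, w.1 i = w'.1 i ∧ w.2 i = w'.2 i := by
      intro i
      have h1 : q * (w.1 i + 1) + w.2 i = q * (w'.1 i + 1) + w'.2 i := congrFun h i
      have h2 := hw.2.1 i
      have h3 := hw'.2.1 i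
      have h4 : w.2 i = w'.2 i := by
        have e1 : (q * (w.1 i + 1) + w.2 i) % q = w.2 i := by
          rw [Nat.mul_add_mod, Nat.mod_eq_of_lt h2]
        have e2 : (q * (w'.1 i + 1) + w'.2 i) % q = w'.2 i := by
          rw [Nat.mul_add_mod, Nat.mod_eq_of_lt h3]
        rw [← e1, ← e2, h1]
      refine ⟨?_, h4⟩
      have h5 : q * (w.1 i + 1) = q * (w'.1 i + 1) := by omega
      have := Nat.eq_of_mul_eq_mul_left hq0 h5
      omega
    exact Prod.ext (funext fun i => (hc i).1) (funext fun i => (hc i).2)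

/-- number of possible vectors of power sums on `solN` -/
lemma card_values (p k m n N : ℕ) (hp : 0 < p) (hn0 : 0 < n) (hn : n = k * (k + 1) / 2) :
    (((solN p k m n N).image (fun x => fun j : Fin k => ∑ i, x i ^ (j.val + 1))).card : ℝ) ≤
      (n : ℝ) ^ k * (N : ℝ) ^ n / ((p : ℝ) ^ m) ^ n := by
  classical
  have hsub : (solN p k m n N).image (fun x => fun j : Fin k => ∑ i, x i ^ (j.val + 1)) ⊆
      Fintype.piFinset (fun j : Fin k => (Icc 1 (n * N ^ (j.val + 1) / p ^ ((j.val + 1) * m))).image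
        (fun b => p ^ ((j.val + 1) * m) * b)) := by
    intro y hy
    rw [mem_image] at hy
    obtain ⟨x, hx, rfl⟩ := hy
    rw [solN, mem_filter, Fintype.mem_piFinset] at hx
    rw [Fintype.mem_piFinset]
    intro j
    obtain ⟨b, hb⟩ := hx.2 j
    rw [mem_image]
    refine ⟨b, ?_, hb.symm⟩
    rw [mem_Icc]
    have h0 : 0 < ∑ i, x i ^ (j.val + 1) := by
      apply sum_pos
      · intro i _
        have := (mem_Icc.mp (hx.1 i)).1
        positivity
      · exact ⟨⟨0, hn0⟩, mem_univ _⟩
    have h1 : ∑ i, x i ^ (j.val + 1) ≤ n * N ^ (j.val + 1) := by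
      calc ∑ i, x i ^ (j.val + 1) ≤ ∑ _i : Fin n, N ^ (j.val + 1) := by
            apply sum_le_sum
            intro i _
            exact Nat.pow_le_pow_left (mem_Icc.mp (hx.1 i)).2 _
        _ = n * N ^ (j.val + 1) := by simp
    rw [hb] at h1 h0
    have hpos : 0 < p ^ ((j.val + 1) * m) := by positivity
    have h2 : b ≤ n * N ^ (j.val + 1) / p ^ ((j.val + 1) * m) :=
      (Nat.le_div_iff_mul_le hpos).mpr (by rw [mul_comm]; exact h1)
    exact ⟨Nat.pos_of_mul_pos_left h0, h2⟩
  have h1 := card_le_card hsub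
  rw [Fintype.card_piFinset] at h1
  have h2 : ∏ j : Fin k, ((Icc 1 (n * N ^ (j.val + 1) / p ^ ((j.val + 1) * m))).image
      (fun b => p ^ ((j.val + 1) * m) * b)).card ≤
      ∏ j : Fin k, (n * N ^ (j.val + 1) / p ^ ((j.val + 1) * m)) := by
    apply prod_le_prod' 
    intro j _
    refine card_image_le.trans ?_
    simp
  have h3 : (((solN p k m n N).image (fun x => fun j : Fin k => ∑ i, x i ^ (j.val + 1))).card : ℝ) ≤
      ∏ j : Fin k, ((n * N ^ (j.val + 1) / p ^ ((j.val + 1) * m) : ℕ) : ℝ) := by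
    exact_mod_cast h1.trans h2
  refine h3.trans ?_
  have hp' : (0 : ℝ) < p := by exact_mod_cast hp
  have h4 : ∏ j : Fin k, ((n * N ^ (j.val + 1) / p ^ ((j.val + 1) * m) : ℕ) : ℝ) ≤
      ∏ j : Fin k, ((n : ℝ) * (N : ℝ) ^ (j.val + 1) / (p : ℝ) ^ ((j.val + 1) * m)) := by
    apply prod_le_prod
    · intro j _
      positivity
    · intro j _
      refine Nat.cast_div_le.trans ?_
      push_cast
      exact le_rfl
  refine h4.trans (le_of_eq ?_)
  rw [prod_div_distrib, prod_mul_distrib, prod_pow_eq_pow_sum, prod_pow_eq_pow_sum,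
    sum_succ_fin k m, ← pow_mul]
  have h5 : ∑ j : Fin k, (j.val + 1) = n := by
    have := sum_succ_fin k 1
    simp only [mul_one] at this
    rw [this, hn]
  rw [h5, hn]
  simp [mul_comm m]

end Pool.Agent.H32.Vin
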