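import Mathlib

set_option autoImplicit false

namespace Pool.Agent.H32.Vin

open Finset

/-- If `z, z'` are congruent mod `p`, `z` has distinct residues mod `p`, and all power sums of
degree `1..k` agree mod `p ^ L`, then `z ≡ z' (mod p ^ L)` (`k < p`). -/
lemma lift_unique (p k L : ℕ) (hp : p.Prime) (hkp : k < p) (z z' : Fin k → ℤ)
    (hz : ∀ i i', (p : ℤ) ∣ z i - z i' → i = i') (hzz : ∀ i, (p : ℤ) ∣ z' i - z i)
    (h : ∀ j : Fin k, ((p : ℤ) ^ L) ∣ ∑ i, z' i ^ (j.val + 1) - ∑ i, z i ^ (j.val + 1)) :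
    ∀ r : ℕ, 1 ≤ r → r ≤ L → ∀ i, ((p : ℤ) ^ r) ∣ z' i - z i := by
  intro r hr
  induction r, hr using Nat.le_induction with
  | base => intro _ i; simpa using hzz i
  | succ r hr ih =>
    intro hrL i
    have ih' := ih (by omega)
    choose u hu using ih'
    have : Fact p.Prime := ⟨hp⟩
    have hp0 : (p : ℤ) ≠ 0 := by exact_mod_cast hp.ne_zero
    -- key congruences
    have key : ∀ j : Fin k, (p : ℤ) ∣ ∑ i, z i ^ j.val * u i := by
      intro j
      have h1 : ((p : ℤ) ^ (r + 1)) ∣ ∑ i, z' i ^ (j.val + 1) - ∑ i, z i ^ (j.val + 1) :=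
        (pow_dvd_pow _ hrL).trans (h j)
      have h2 : ∀ i, ∃ c : ℤ, z' i ^ (j.val + 1) - z i ^ (j.val + 1) =
          (p : ℤ) ^ r * ((j.val + 1 : ℤ) * (z i ^ j.val * u i)) + (p : ℤ) ^ (r + 1) * c := by
        intro i
        obtain ⟨c, hc⟩ := Polynomial.powAddExpansion (z i) ((p : ℤ) ^ r * u i) (j.val + 1)
        refine ⟨c * (p : ℤ) ^ (r - 1) * u i ^ 2, ?_⟩
        have h3 : z' i = z i + (p : ℤ) ^ r * u i := by linarith [hu i]
        rw [h3, hc]
        have h4 : ((p : ℤ) ^ r) ^ 2 = (p : ℤ) ^ (r + 1) * (p : ℤ) ^ (r - 1) := by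
          rw [← pow_mul, ← pow_add]
          congr 1
          omega
        simp only [Nat.add_sub_cancel]
        push_cast
        linear_combination (c * u i ^ 2) * h4
      choose c hc using h2
      have h5 : ∑ i, z' i ^ (j.val + 1) - ∑ i, z i ^ (j.val + 1) =
          (p : ℤ) ^ r * ((j.val + 1 : ℤ) * ∑ i, z i ^ j.val * u i) +
            (p : ℤ) ^ (r + 1) * ∑ i, c i := by
        rw [← Finset.sum_sub_distrib, Finset.mul_sum, Finset.mul_sum, Finset.mul_sum,
          ← Finset.sum_add_distrib]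
        exact Finset.sum_congr rfl (fun i _ => hc i)
      rw [h5] at h1
      have h6 : ((p : ℤ) ^ (r + 1)) ∣ (p : ℤ) ^ r * ((j.val + 1 : ℤ) * ∑ i, z i ^ j.val * u i) :=
        (Int.dvd_add_left (Dvd.intro _ rfl)).mp h1
      rw [pow_succ] at h6
      have h7 : (p : ℤ) ∣ (j.val + 1 : ℤ) * ∑ i, z i ^ j.val * u i :=
        Int.dvd_of_mul_dvd_mul_left (pow_ne_zero _ hp0) h6
      rcases Int.Prime.dvd_mul' hp h7 with h8 | h8
      · exfalso
        have h9 : p ∣ j.val + 1 := by exact_mod_cast h8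
        have := Nat.le_of_dvd (by omega) h9
        have := j.2
        omega
      · exact h8
    -- Vandermonde mod p
    set v : Fin k → ZMod p := fun i => ((z i : ℤ) : ZMod p) with hv
    have hvinj : Function.Injective v := by
      intro i i' hii
      apply hz
      have : ((z i - z i' : ℤ) : ZMod p) = 0 := by
        push_cast
        exact sub_eq_zero.mpr hii
      exact (ZMod.intCast_zmod_eq_zero_iff_dvd _ _).mp this
    have hdet : (Matrix.vandermonde v).det ≠ 0 := Matrix.det_vandermonde_ne_zero_iff.mpr hvinj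
    have hmul : Matrix.vecMul (fun i => ((u i : ℤ) : ZMod p)) (Matrix.vandermonde v) = 0 := by
      funext j
      have := (ZMod.intCast_zmod_eq_zero_iff_dvd _ _).mpr (key j)
      push_cast at this
      simp only [Matrix.vecMul, dotProduct, Matrix.vandermonde_apply, Pi.zero_apply]
      rw [← this]
      exact Finset.sum_congr rfl (fun i _ => by rw [hv]; ring)
    have hu0 := Matrix.eq_zero_of_vecMul_eq_zero hdet hmul
    have hui : (p : ℤ) ∣ u i := by
      have := congrFun hu0 i
      exact (ZMod.intCast_zmod_eq_zero_iff_dvd _ _).mp (by simpa using this)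
    rw [hu i, pow_succ]
    exact mul_dvd_mul_left _ hui

end Pool.Agent.H32.Vin
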